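import Mathlib
import Pool.Agent.H95.VG.Targets3
import Pool.Agent.H95.VG.Targets5

/-!
# VG module MOP: openness, thinness, restriction
-/

open MeasureTheory Set Filter Topology
open scoped ENNReal NNReal ContDiff ComplexConjugate

namespace Pool.Agent.H78.VG

open Pool.Agent.H95.VG

variable {n : ℕ}

theorem append_mem_ball {z y z₀ y₀ : V n} {r : ℝ} (hr : 0 < r) :
    Fin.append z y ∈ Metric.ball (Fin.append z₀ y₀) r ↔
      z ∈ Metric.ball z₀ r ∧ y ∈ Metric.ball y₀ r := by
  simp only [Metric.mem_ball, dist_pi_lt_iff hr]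
  constructor
  · intro h
    refine ⟨fun i => ?_, fun i => ?_⟩
    · simpa using h (Fin.castAdd n i)
    · have := h (Fin.natAdd n i)
      rwa [Fin.append_right, Fin.append_right] at this
  · rintro ⟨h1, h2⟩ i
    refine Fin.addCases (fun i => ?_) (fun i => ?_) i
    · simpa using h1 i
    · rw [Fin.append_right, Fin.append_right]
      exact h2 i

theorem continuousOn_Zf {F : V n → V n} {W : Set (V n)} (hF : ContinuousOn F W) :
    ContinuousOn (Zf F) W := by
  refine continuousOn_pi.2 fun i => ?_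
  refine Fin.addCases (fun i => ?_) (fun i => ?_) i
  · simp only [Zf, Fin.append_left]
    exact (continuous_apply i).continuousOn
  · simp only [Zf, Fin.append_right]
    exact (continuous_apply i).comp_continuousOn hF

theorem mop (hZER : T_ZER) : T_MOP := by
  intro n X _ _ ι A f I D h
  have hop : IsOpen (D \ I) := by
    rw [isOpen_iff_mem_nhds]
    rintro z ⟨hzD, hzI⟩
    obtain ⟨r, hr, hb, m, g, hg, hgi⟩ := h.ian z hzD
    have h1 : IsOpen (Metric.ball z r ∩ g ⁻¹' {w | w ≠ 0}) :=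
      hg.continuousOn.isOpen_inter_preimage Metric.isOpen_ball isOpen_ne
    refine mem_of_superset (h1.mem_nhds ⟨Metric.mem_ball_self hr, ?_⟩) ?_
    · exact fun h0 => hzI ((hgi z (Metric.mem_ball_self hr)).2 h0)
    · rintro w ⟨hw, hw0⟩
      exact ⟨hb hw, fun hI => hw0 ((hgi w hw).1 hI)⟩
  refine ⟨hop, ?_, ?_, ?_⟩
  · refine measure_null_of_locally_null I fun z hz => ?_
    obtain ⟨r, hr, hb, m, g, hg, hgi⟩ := h.ian z (h.sub hz)
    have hne : ∃ w ∈ Metric.ball z r, g w ≠ 0 := by
      by_contra hcon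
      push Not at hcon
      have : Metric.ball z r ⊆ interior I :=
        interior_maximal (fun w hw => (hgi w hw).2 (hcon w hw)) Metric.isOpen_ball
      rw [h.thin] at this
      exact this (Metric.mem_ball_self hr)
    obtain ⟨w, hw, hgw⟩ := hne
    obtain ⟨i, hi⟩ : ∃ i, g w i ≠ 0 := by
      by_contra hcon
      push Not at hcon
      exact hgw (funext hcon)
    have hgd : DifferentiableOn ℂ (fun x => g x i) (Metric.ball z r) :=
      (differentiableOn_pi.1 hg) i
    have h0 := hZER n z r (fun x => g x i) hgd ⟨w, hw, hi⟩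
    refine ⟨I ∩ Metric.ball z r, ?_, ?_⟩
    · exact inter_mem_nhdsWithin I (Metric.ball_mem_nhds z hr)
    · refine measure_mono_null ?_ h0
      rintro x ⟨hxI, hxb⟩
      exact ⟨hxb, by simp [(hgi x hxb).1 hxI]⟩
  · intro a P r
    have hW : IsOpen ((D \ I) ∩ f ⁻¹' (A.φ a).source) :=
      h.cont.isOpen_inter_preimage hop (A.φ a).open_source
    have hc : ContinuousOn (Zf (FF A f a)) ((D \ I) ∩ f ⁻¹' (A.φ a).source) :=
      continuousOn_Zf (h.hol a).continuousOn
    have := hc.isOpen_inter_preimage hW (Metric.isOpen_ball (x := P) (ε := r))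
    convert this using 1
    ext z
    simp only [Ug, mem_ofPred_eq, mem_inter_iff, mem_preimage]
    tauto
  · intro D' hD' hsub
    have hI' : ∀ z ∈ D', (z ∈ I ∩ D' ↔ z ∈ I) := fun z hz => ⟨fun h => h.1, fun h => ⟨h, hz⟩⟩
    have hDI : D' \ (I ∩ D') ⊆ D \ I := fun z hz => ⟨hsub hz.1, fun hI => hz.2 ⟨hI, hz.1⟩⟩
    refine ⟨hD', inter_subset_right, ?_, ?_, h.cont.mono hDI, ?_, ?_⟩
    · intro z₀ hz₀
      obtain ⟨r, hr, hb, m, g, hg, hgi⟩ := h.ian z₀ (hsub hz₀)
      obtain ⟨r2, hr2, hb2⟩ := Metric.isOpen_iff.1 hD' z₀ hz₀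
      refine ⟨min r r2, lt_min hr hr2, (Metric.ball_subset_ball (min_le_right _ _)).trans hb2,
        m, g, hg.mono (Metric.ball_subset_ball (min_le_left _ _)), fun z hz => ?_⟩
      rw [hI' z (hb2 (Metric.ball_subset_ball (min_le_right _ _) hz))]
      exact hgi z (Metric.ball_subset_ball (min_le_left _ _) hz)
    · exact subset_empty_iff.1 ((interior_mono inter_subset_left).trans h.thin.subset)
    · intro a
      exact (h.hol a).mono fun z hz => ⟨hDI hz.1, hz.2⟩
    · intro a z₀ hz₀ y₀ hy₀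
      obtain ⟨r, m, G, l, L⟩ := h.loc a z₀ (hsub hz₀) y₀ hy₀
      obtain ⟨r2, hr2, hb2⟩ := Metric.isOpen_iff.1 hD' z₀ hz₀
      have hmin : 0 < min r r2 := lt_min L.rpos hr2
      have hbb : Metric.ball (Fin.append z₀ y₀) (min r r2) ⊆ Metric.ball (Fin.append z₀ y₀) r :=
        Metric.ball_subset_ball (min_le_left _ _)
      have hzD' : ∀ z y : V n, Fin.append z y ∈ Metric.ball (Fin.append z₀ y₀) (min r r2) →
          z ∈ D' := fun z y hzy =>
        hb2 (Metric.ball_subset_ball (min_le_right _ _) ((append_mem_ball hmin).1 hzy).1)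
      refine ⟨min r r2, m, G, l, ⟨hmin, (min_le_left _ _).trans L.rle, ?_, L.ghol.mono hbb,
        L.lhol.mono hbb, L.l0, fun Z hZ => L.iso Z (hbb hZ), ?_⟩⟩
      · intro z y hzy
        exact ⟨hzD' z y hzy, (L.dom z y (hbb hzy)).2⟩
      · intro z y hzy hz
        exact L.gr z y (hbb hzy) fun hI => hz ⟨hI, hzD' z y hzy⟩

end Pool.Agent.H78.VG
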