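import Mathlib
import Pool.Agent.H78.VG.MOP

/-!
# VG module S1M: finiteness over compact sets
-/

open MeasureTheory Set Filter Topology
open scoped ENNReal NNReal ContDiff ComplexConjugate

namespace Pool.Agent.H78.VG

open Pool.Agent.H95.VG

variable {n : ℕ}

/-- compactness principle for integrals over the graph -/
theorem graph_compact {X : Type} [TopologicalSpace X] {ι : Type}
    (A : Atl n X ι) (f : V n → X) (I D : Set (V n)) (a : ι) (g : V n → ℝ≥0∞)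
    (C : Set (V n × V n)) (hC : IsCompact C)
    (hloc : ∀ z₀ y₀, (z₀, y₀) ∈ C → ∃ ρ : ℝ, 0 < ρ ∧
      ∫⁻ z in Ug A f I D a (Fin.append z₀ y₀) ρ, g z < ⊤) :
    ∫⁻ z in {z | z ∈ D \ I ∧ f z ∈ (A.φ a).source ∧ (z, FF A f a z) ∈ C}, g z < ⊤ := by
  refine hC.induction_on (p := fun S =>
    ∫⁻ z in {z | z ∈ D \ I ∧ f z ∈ (A.φ a).source ∧ (z, FF A f a z) ∈ S}, g z < ⊤) ?_ ?_ ?_ ?_
  · simp
  · intro S T hST hT
    refine lt_of_le_of_lt (lintegral_mono_set ?_) hT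
    rintro z ⟨h1, h2, h3⟩
    exact ⟨h1, h2, hST h3⟩
  · intro S T hS hT
    have : {z | z ∈ D \ I ∧ f z ∈ (A.φ a).source ∧ (z, FF A f a z) ∈ S ∪ T}
        = {z | z ∈ D \ I ∧ f z ∈ (A.φ a).source ∧ (z, FF A f a z) ∈ S} ∪
          {z | z ∈ D \ I ∧ f z ∈ (A.φ a).source ∧ (z, FF A f a z) ∈ T} := by
      ext z
      simp only [mem_ofPred_eq, mem_union]
      tauto
    rw [this]
    exact lt_of_le_of_lt (lintegral_union_le _ _ _) (ENNReal.add_lt_top.2 ⟨hS, hT⟩)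
  · rintro ⟨z₀, y₀⟩ hzy
    obtain ⟨ρ, hρ, hfin⟩ := hloc z₀ y₀ hzy
    refine ⟨Metric.ball z₀ ρ ×ˢ Metric.ball y₀ ρ, mem_nhdsWithin_of_mem_nhds
      (prod_mem_nhds (Metric.ball_mem_nhds _ hρ) (Metric.ball_mem_nhds _ hρ)), ?_⟩
    refine lt_of_le_of_lt (lintegral_mono_set ?_) hfin
    rintro z ⟨h1, h2, h3⟩
    exact ⟨h1, h2, (append_mem_ball hρ).2 ⟨h3.1, h3.2⟩⟩

theorem s1m (hFBR : T_FBR) (hFVL : T_FVL) : T_S1M := by
  intro n X _ _ ι A f I D hn h K hK hKc a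
  refine lt_of_le_of_lt (lintegral_mono_set ?_)
    (graph_compact A f I D a _ (K ×ˢ Metric.closedBall (0 : V n) (5 / 2))
      (hKc.prod (isCompact_closedBall _ _)) ?_)
  · rintro z ⟨⟨hzK, hzI⟩, hz1, hz2⟩
    exact ⟨⟨hK hzK, hzI⟩, hz1, hzK, hz2⟩
  · rintro z₀ y₀ ⟨hz₀, hy₀⟩
    obtain ⟨r, m, G, l, L⟩ := h.loc a z₀ (hK hz₀) y₀ hy₀
    obtain ⟨r', ε₀, δ₁, D₀, B⟩ := hFBR n X ι A f I D hn h a _ r m G l L
    obtain ⟨ρ, hρ, _, hfin⟩ := hFVL n X ι A f I D hn h a _ r m G l L r' ε₀ δ₁ D₀ B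
    exact ⟨ρ, hρ, hfin⟩

end Pool.Agent.H78.VG
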