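import Mathlib
import Pool.Agent.H95.VG.Targets1
import Pool.Agent.H95.VG.Targets5

/-!
# VG module YMX: domination of the cofactor fields of the perturbed projections
-/

open MeasureTheory Set Filter Topology
open scoped ENNReal NNReal ContDiff ComplexConjugate

namespace Pool.Agent.H78.VG

open Pool.Agent.H95.VG

variable {n : ℕ}

/-- expansion of a determinant whose rows are combinations -/
theorem det_expand {S : Type} [Fintype S] [DecidableEq S] (b : Fin n → S → ℂ)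
    (R : Fin n → S → V n) :
    Matrix.det (Matrix.of fun i => ∑ s, b i s • R i s) =
      ∑ Ψ : Fin n → S, (∏ i, b i (Ψ i)) * Matrix.det (Matrix.of fun i => R i (Ψ i)) := by
  have h1 := (Matrix.detRowAlternating (n := Fin n) (R := ℂ)).toMultilinearMap.map_sum
    (fun i s => b i s • R i s)
  have h2 : ∀ Ψ : Fin n → S,
      (Matrix.detRowAlternating (n := Fin n) (R := ℂ)).toMultilinearMap
        (fun i => b i (Ψ i) • R i (Ψ i)) =
      (∏ i, b i (Ψ i)) • (Matrix.detRowAlternating (n := Fin n) (R := ℂ)).toMultilinearMap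
        (fun i => R i (Ψ i)) := fun Ψ =>
    MultilinearMap.map_smul_univ _ _ _
  simp_rw [h2] at h1
  exact h1

/-- the rows -/
noncomputable def RR (F : V n → V n) (z : V n) (s : Fin n ⊕ Fin n) : V n :=
  Sum.elim (fun j => ek j) (jac F z) s

theorem norm_sum_sq_le {S : Type} [Fintype S] (c : S → ℂ) (x : S → ℂ) (B : ℝ)
    (hc : ∀ s, ‖c s‖ ≤ B) :
    ‖∑ s, c s * x s‖ ^ 2 ≤ B ^ 2 * Fintype.card S * ∑ s, ‖x s‖ ^ 2 := by
  have h1 : ‖∑ s, c s * x s‖ ≤ ∑ s, B * ‖x s‖ := by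
    refine (norm_sum_le _ _).trans (Finset.sum_le_sum fun s _ => ?_)
    rw [norm_mul]
    exact mul_le_mul_of_nonneg_right (hc s) (norm_nonneg _)
  have h2 : (∑ s, B * ‖x s‖) ^ 2 ≤ Fintype.card S * ∑ s, (B * ‖x s‖) ^ 2 := by
    have := sq_sum_le_card_mul_sum_sq (s := (Finset.univ : Finset S)) (f := fun s => B * ‖x s‖)
    simpa using this
  calc ‖∑ s, c s * x s‖ ^ 2 ≤ (∑ s, B * ‖x s‖) ^ 2 := by
        exact pow_le_pow_left₀ (norm_nonneg _) h1 2
    _ ≤ Fintype.card S * ∑ s, (B * ‖x s‖) ^ 2 := h2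
    _ = B ^ 2 * Fintype.card S * ∑ s, ‖x s‖ ^ 2 := by
        simp_rw [mul_pow, ← Finset.mul_sum]
        ring

theorem fderiv_Zf (F : V n → V n) (z : V n) (hF : DifferentiableAt ℂ F z) :
    DifferentiableAt ℂ (Zf F) z ∧ ∀ v, fderiv ℂ (Zf F) z v = Fin.append v (fderiv ℂ F z v) := by
  have h1 : ∀ i : Fin (n + n), DifferentiableAt ℂ (fun x => Zf F x i) z ∧
      ∀ v, fderiv ℂ (fun x => Zf F x i) z v = Fin.append v (fderiv ℂ F z v) i := by
    intro i
    refine Fin.addCases (fun i => ?_) (fun i => ?_) i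
    · simp only [Zf, Fin.append_left]
      have h : HasFDerivAt (fun x : V n => x i)
          (ContinuousLinearMap.proj (R := ℂ) (φ := fun _ : Fin n => ℂ) i) z :=
        hasFDerivAt_apply i z
      exact ⟨h.differentiableAt, fun v => by rw [h.fderiv]; rfl⟩
    · simp only [Zf, Fin.append_right]
      refine ⟨differentiableAt_pi.1 hF i, fun v => ?_⟩
      rw [fderiv_apply hF]; rfl
  have h2 : DifferentiableAt ℂ (Zf F) z := differentiableAt_pi.2 fun i => (h1 i).1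
  refine ⟨h2, fun v => ?_⟩
  ext i
  rw [← (h1 i).2 v, fderiv_apply h2]
  rfl

theorem append_eq_sum (v w : V n) :
    (Fin.append v w : V (n + n)) = ∑ s : Fin n ⊕ Fin n,
      (Sum.elim v w s) • (Pi.single (finSumFinEquiv s) (1 : ℂ) : V (n + n)) := by
  ext i
  rw [Finset.sum_apply]
  obtain ⟨s, rfl⟩ := finSumFinEquiv.surjective i
  rw [Finset.sum_eq_single s]
  · rcases s with j | j
    · rw [finSumFinEquiv_apply_left, Fin.append_left]
      simp
    · rw [finSumFinEquiv_apply_right, Fin.append_right]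
      simp
  · intro t _ ht
    have : finSumFinEquiv s ≠ finSumFinEquiv t := fun h => ht (finSumFinEquiv.injective h).symm
    simp [this]
  · simp

/-- the coefficients -/
noncomputable def aco (l : V (n + n) → V n) (Φ : Fin n → Fin n ⊕ Fin n) (ε : ℝ) (Z : V (n + n))
    (i : Fin n) (s : Fin n ⊕ Fin n) : ℂ :=
  fderiv ℂ l Z (Pi.single (finSumFinEquiv s) 1) i + (ε : ℂ) * (if s = Φ i then 1 else 0)

theorem jac_YY (hJAC : T_JAC) (hDOM : T_DOM) (P : V (n + n)) (r : ℝ) (l : V (n + n) → V n)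
    (hl : DifferentiableOn ℂ l (Metric.ball P r)) (F : V n → V n) (z : V n)
    (hF : DifferentiableAt ℂ F z) (hz : Zf F z ∈ Metric.ball P r) (Φ : Fin n → Fin n ⊕ Fin n)
    (ε : ℝ) :
    jac (fun x => YY l P Φ ε (Zf F x)) z =
      Matrix.of fun i => ∑ s, aco l Φ ε (Zf F z) i s • RR F z s := by
  obtain ⟨_, h2⟩ := hJAC n F z P r l hF hl hz Φ ε
  rw [h2]
  have hlZ : DifferentiableAt ℂ l (Zf F z) :=
    hl.differentiableAt (Metric.isOpen_ball.mem_nhds hz)
  obtain ⟨hZ1, hZ2⟩ := fderiv_Zf F z hF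
  have hcomp : fderiv ℂ (fun x => l (Zf F x)) z = (fderiv ℂ l (Zf F z)).comp (fderiv ℂ (Zf F) z) :=
    fderiv_comp z hlZ hZ1
  have hrow := (hDOM n F z hF).2.2.2.2.2.1
  funext i j
  have e1 : jac (fun x => l (Zf F x)) z i j
      = ∑ s, fderiv ℂ l (Zf F z) (Pi.single (finSumFinEquiv s) 1) i * RR F z s j := by
    show fderiv ℂ (fun x => l (Zf F x)) z (ek j) i = _
    rw [hcomp]
    show fderiv ℂ l (Zf F z) (fderiv ℂ (Zf F) z (ek j)) i = _
    rw [hZ2, append_eq_sum, map_sum, Finset.sum_apply]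
    refine Finset.sum_congr rfl fun s _ => ?_
    rw [map_smul, Pi.smul_apply, smul_eq_mul, mul_comm]
    congr 1
    rcases s with k | k
    · simp [RR, ek, Pi.single_apply, eq_comm]
    · simp [RR, jac]
  have e2 : jac (mix Φ F) z i j = ∑ s, (if s = Φ i then 1 else 0) * RR F z s j := by
    rw [hrow Φ i]
    simp [RR]
  rw [Matrix.add_apply, Matrix.smul_apply, e1, e2]
  rw [Matrix.of_apply, Finset.sum_apply, smul_eq_mul, Finset.mul_sum, ← Finset.sum_add_distrib]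
  refine Finset.sum_congr rfl fun s _ => ?_
  simp only [aco, Pi.smul_apply, smul_eq_mul]
  ring

theorem det_YY (hJAC : T_JAC) (hDOM : T_DOM) (P : V (n + n)) (r : ℝ) (l : V (n + n) → V n)
    (hl : DifferentiableOn ℂ l (Metric.ball P r)) (F : V n → V n) (z : V n)
    (hF : DifferentiableAt ℂ F z) (hz : Zf F z ∈ Metric.ball P r) (Φ : Fin n → Fin n ⊕ Fin n)
    (ε : ℝ) :
    (jac (fun x => YY l P Φ ε (Zf F x)) z).det =
      ∑ Ψ : Fin n → Fin n ⊕ Fin n, (∏ i, aco l Φ ε (Zf F z) i (Ψ i)) * (jac (mix Ψ F) z).det := by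
  rw [jac_YY hJAC hDOM P r l hl F z hF hz Φ ε, det_expand]
  refine Finset.sum_congr rfl fun Ψ _ => ?_
  have hrow := (hDOM n F z hF).2.2.2.2.2.1
  congr 2
  funext i
  rw [hrow Ψ i]
  rfl

open Classical in
theorem cf_YY (hJAC : T_JAC) (hDOM : T_DOM) (P : V (n + n)) (r : ℝ) (l : V (n + n) → V n)
    (hl : DifferentiableOn ℂ l (Metric.ball P r)) (F : V n → V n) (z : V n)
    (hF : DifferentiableAt ℂ F z) (hz : Zf F z ∈ Metric.ball P r) (Φ : Fin n → Fin n ⊕ Fin n)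
    (ε : ℝ) (k i : Fin n) :
    cf (fun x => YY l P Φ ε (Zf F x)) k z i =
      ∑ Ψ : Fin n → Fin n ⊕ Fin n, (∏ i', (if i' = k then (if Ψ i' = Sum.inl k then 1 else 0) else
        aco l Φ ε (Zf F z) i' (Ψ i'))) * cf (mix Ψ F) k z i := by
  have hrow := (hDOM n F z hF).2.2.2.2.2.1
  show (jac (fun x => YY l P Φ ε (Zf F x)) z).adjugate i k = _
  rw [Matrix.adjugate_apply]
  have e : (jac (fun x => YY l P Φ ε (Zf F x)) z).updateRow k (Pi.single i 1) =
      Matrix.of fun i' => ∑ s, (if i' = k then (if s = Sum.inl k then (1 : ℂ) else 0) else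
        aco l Φ ε (Zf F z) i' s) • (if i' = k then (Pi.single i 1 : V n) else RR F z s) := by
    funext i'
    change _ = ∑ s, (if i' = k then (if s = Sum.inl k then (1 : ℂ) else 0) else
        aco l Φ ε (Zf F z) i' s) • (if i' = k then (Pi.single i 1 : V n) else RR F z s)
    by_cases h : i' = k
    · subst h
      rw [Matrix.updateRow_self]
      simp
    · rw [Matrix.updateRow_ne h, jac_YY hJAC hDOM P r l hl F z hF hz Φ ε]
      simp only [if_neg h]
      rfl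
  rw [e, det_expand]
  refine Finset.sum_congr rfl fun Ψ _ => ?_
  congr 1
  show _ = (jac (mix Ψ F) z).adjugate i k
  rw [Matrix.adjugate_apply]
  congr 1
  funext i'
  change (if i' = k then (Pi.single i 1 : V n) else RR F z (Ψ i')) = _
  by_cases h : i' = k
  · subst h
    rw [Matrix.updateRow_self, if_pos rfl]
  · rw [Matrix.updateRow_ne h, hrow Ψ i', if_neg h]
    rfl

theorem ymx (hSMO : T_SMO) (hLIN : T_LIN) (hDOM : T_DOM) (hJAC : T_JAC) : T_YMX := by
  intro n P r r' l hl hr'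
  have hsub : Metric.closedBall P r' ⊆ Metric.ball P r := Metric.closedBall_subset_ball hr'
  have hcd : ContinuousOn (fun Z => fderiv ℂ l Z) (Metric.ball P r) :=
    (hSMO (n + n) (V n) (Metric.ball P r) l Metric.isOpen_ball hl).1.continuousOn_fderiv_of_isOpen
      Metric.isOpen_ball (by simp)
  obtain ⟨C0, hC0⟩ := (isCompact_closedBall P r').exists_bound_of_continuousOn (hcd.mono hsub)
  set C1 : ℝ := |C0| + 1 with hC1
  have hC11 : 1 ≤ C1 := by
    have := abs_nonneg C0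
    linarith
  set N : ℝ := ((Fintype.card (Fin n → Fin n ⊕ Fin n) : ℕ) : ℝ) with hN
  have hN1 : 1 ≤ N := by
    have : 0 < Fintype.card (Fin n → Fin n ⊕ Fin n) :=
      Fintype.card_pos_iff.2 ⟨fun i => Sum.inl i⟩
    rw [hN]
    exact_mod_cast this
  refine ⟨(C1 ^ n) ^ 2 * N * N, by positivity, ?_⟩
  intro F z hF hz Φ ε hε0 hε1 k
  have hzb := hsub hz
  have ha : ∀ i s, ‖aco l Φ ε (Zf F z) i s‖ ≤ C1 := by
    intro i s
    unfold aco
    refine (norm_add_le _ _).trans ?_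
    have h1 : ‖fderiv ℂ l (Zf F z) (Pi.single (finSumFinEquiv s) 1) i‖ ≤ |C0| := by
      refine (norm_le_pi_norm _ i).trans ?_
      refine ((fderiv ℂ l (Zf F z)).le_opNorm _).trans ?_
      rw [Pi.norm_single, norm_one, mul_one]
      exact (hC0 _ hz).trans (le_abs_self _)
    have h2 : ‖(ε : ℂ) * (if s = Φ i then 1 else 0)‖ ≤ 1 := by
      rw [norm_mul, Complex.norm_real, Real.norm_eq_abs, abs_of_nonneg hε0]
      split_ifs
      · simpa using hε1
      · simp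
    linarith
  have hprod : ∀ b : Fin n → ℂ, (∀ i, ‖b i‖ ≤ C1) → ‖∏ i, b i‖ ≤ C1 ^ n := by
    intro b hb
    rw [norm_prod]
    calc ∏ i, ‖b i‖ ≤ ∏ _i : Fin n, C1 := Finset.prod_le_prod (fun i _ => norm_nonneg _)
          fun i _ => hb i
      _ = C1 ^ n := by simp
  have hDm0 : 0 ≤ Dm F z := by
    have := (hDOM n F z hF).1
    linarith
  have hle : (C1 ^ n) ^ 2 * N ≤ (C1 ^ n) ^ 2 * N * N := by
    have : 0 ≤ (C1 ^ n) ^ 2 * N := by positivity
    nlinarith
  have hcoef : ∀ Ψ : Fin n → Fin n ⊕ Fin n,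
      ‖∏ i', (if i' = k then (if Ψ i' = Sum.inl k then (1 : ℂ) else 0) else
        aco l Φ ε (Zf F z) i' (Ψ i'))‖ ≤ C1 ^ n := by
    intro Ψ
    refine hprod _ fun i' => ?_
    split_ifs
    · simpa using hC11
    · simpa using (zero_le_one.trans hC11)
    · exact ha _ _
  refine ⟨?_, ?_, ?_⟩
  · rw [det_YY hJAC hDOM P r l hl F z hF hzb Φ ε]
    refine (norm_sum_sq_le _ _ (C1 ^ n) fun Ψ => hprod _ fun i => ha _ _).trans ?_
    exact mul_le_mul_of_nonneg_right hle hDm0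
  · intro i
    rw [cf_YY hJAC hDOM P r l hl F z hF hzb Φ ε]
    refine (norm_sum_sq_le _ _ (C1 ^ n) hcoef).trans ?_
    have : ∑ Ψ : Fin n → Fin n ⊕ Fin n, ‖cf (mix Ψ F) k z i‖ ^ 2 ≤ N * Dm F z := by
      have h := Finset.sum_le_card_nsmul (Finset.univ : Finset (Fin n → Fin n ⊕ Fin n))
        (fun Ψ => ‖cf (mix Ψ F) k z i‖ ^ 2) (Dm F z)
        fun Ψ _ => (hDOM n F z hF).2.2.2.1 Ψ k i
      simpa [nsmul_eq_mul, hN] using h
    calc (C1 ^ n) ^ 2 * N * ∑ Ψ : Fin n → Fin n ⊕ Fin n, ‖cf (mix Ψ F) k z i‖ ^ 2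
        ≤ (C1 ^ n) ^ 2 * N * (N * Dm F z) :=
          mul_le_mul_of_nonneg_left this (by positivity)
      _ = (C1 ^ n) ^ 2 * N * N * Dm F z := by ring
  · intro c hc
    have hdr := (hLIN n z).2.2.2.2 c
    have e : dr c z (cf (fun x => YY l P Φ ε (Zf F x)) k z) =
        ∑ Ψ : Fin n → Fin n ⊕ Fin n,
          (∏ i', (if i' = k then (if Ψ i' = Sum.inl k then (1 : ℂ) else 0) else
            aco l Φ ε (Zf F z) i' (Ψ i'))) * dr c z (cf (mix Ψ F) k z) := by
      rw [(hdr _).1]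
      have : ∀ Ψ : Fin n → Fin n ⊕ Fin n, dr c z (cf (mix Ψ F) k z) =
          ∑ i, cf (mix Ψ F) k z i * dr c z (ek i) := fun Ψ => (hdr _).1
      simp_rw [this, cf_YY hJAC hDOM P r l hl F z hF hzb Φ ε, Finset.mul_sum, Finset.sum_mul]
      rw [Finset.sum_comm]
      refine Finset.sum_congr rfl fun Ψ _ => Finset.sum_congr rfl fun i _ => ?_
      ring
    unfold ge
    rw [e]
    refine (norm_sum_sq_le _ _ (C1 ^ n) hcoef).trans ?_
    have h3 : ∑ Ψ : Fin n → Fin n ⊕ Fin n, ‖dr c z (cf (mix Ψ F) k z)‖ ^ 2 ≤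
        ∑ Ψ : Fin n → Fin n ⊕ Fin n, ∑ k', ‖dr c z (cf (mix Ψ F) k' z)‖ ^ 2 := by
      refine Finset.sum_le_sum fun Ψ _ => ?_
      exact Finset.single_le_sum (f := fun k' => ‖dr c z (cf (mix Ψ F) k' z)‖ ^ 2)
        (fun _ _ => by positivity) (Finset.mem_univ k)
    have h4 : 0 ≤ ∑ Ψ : Fin n → Fin n ⊕ Fin n, ∑ k', ‖dr c z (cf (mix Ψ F) k' z)‖ ^ 2 := by
      positivity
    calc (C1 ^ n) ^ 2 * N * ∑ Ψ : Fin n → Fin n ⊕ Fin n, ‖dr c z (cf (mix Ψ F) k z)‖ ^ 2
        ≤ (C1 ^ n) ^ 2 * N * ∑ Ψ : Fin n → Fin n ⊕ Fin n, ∑ k',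
            ‖dr c z (cf (mix Ψ F) k' z)‖ ^ 2 := mul_le_mul_of_nonneg_left h3 (by positivity)
      _ ≤ (C1 ^ n) ^ 2 * N * N * ∑ Ψ : Fin n → Fin n ⊕ Fin n, ∑ k',
            ‖dr c z (cf (mix Ψ F) k' z)‖ ^ 2 := mul_le_mul_of_nonneg_right hle h4

end Pool.Agent.H78.VG
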